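import Pool.Agent.helper7.FI2.SpecK
import Pool.Agent.helper12.FI.PureF

set_option autoImplicit false

namespace Pool.Agent.FI2

open Pool.Agent.helper58.DC Pool.Agent.DI Pool.Agent.GR Pool.Agent.OB Pool.Agent.DR Pool.Agent.FI

theorem FFF2_nch {G : Type} [Group G] (p : ℕ) : NCh p (⊤ : Subgroup G) ⊥ {⊥} := by
  refine ⟨⟨?_, ?_, ?_, ?_, ?_⟩, ?_⟩
  · rw [Finset.coe_singleton]
    exact Set.subsingleton_singleton.isChain
  · exact Finset.mem_singleton_self _
  · intro Q _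
    exact bot_le
  · intro Q _
    exact le_top
  · intro Q hQ
    rw [Finset.mem_singleton.1 hQ]
    exact IsPGroup.of_bot
  · intro Q _ R hR _
    rw [Finset.mem_singleton.1 hR]
    exact bot_le

theorem FFF2_nrm {G : Type} [Group G] : nrm ({⊥} : Finset (Subgroup G)) = ⊤ := by
  rw [eq_top_iff]
  intro g _
  unfold nrm
  simp only [Finset.mem_singleton, Subgroup.mem_iInf]
  rintro P rfl
  rw [Subgroup.mem_normalizer_iff]
  intro h
  simp [Subgroup.mem_bot]

theorem FFF2_defect {G : Type} [Group G] {p : ℕ} {H : Subgroup G} {ψ : G → ℂ} {d e : ℤ}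
    (h : Defect p H ψ d) (h' : Defect p H ψ e) : d = e := by
  obtain ⟨n, hn, rfl⟩ := h
  obtain ⟨m, hm, rfl⟩ := h'
  have : n = m := by
    have h1 : (n : ℂ) = m := by rw [← hn, ← hm]
    exact_mod_cast h1
  rw [this]

/-- the number of the members of a block with given defect: finite support, and the sum -/
theorem FFF2_cnt (hB2 : Pool.Agent.DI.B2_stmt) {G : Type} [Group G] [Finite G] (p : ℕ)
    (M : Ideal (integralClosure ℤ ℂ)) (χ : G → ℂ) (N : Subgroup G) (c : ℤ) :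
    (Function.support fun d : ℤ => c * ((BlkD p M χ N d).ncard : ℤ)).Finite ∧
    ∑ᶠ d : ℤ, c * ((BlkD p M χ N d).ncard : ℤ) = c * ((Blk M χ N).ncard : ℤ) := by
  have hfin : (Blk M χ N).Finite := by
    refine ((hB2 G N).1).subset ?_
    intro ψ hψ
    exact hψ.1
  have hex : ∀ ψ ∈ Blk M χ N, ∃ d, Defect p N ψ d := by
    intro ψ hψ
    obtain ⟨⟨n, -, hn, -⟩, -⟩ := (hB2 G N).2 ψ hψ.1
    exact ⟨_, n, hn, rfl⟩
  obtain ⟨h1, h2⟩ := PF_count p N (Blk M χ N) hfin hex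
  have hBD : ∀ d : ℤ, (BlkD p M χ N d).ncard =
      Nat.card {ψ : G → ℂ // ψ ∈ Blk M χ N ∧ Defect p N ψ d} := fun d => rfl
  have h3 : (Function.support fun d : ℤ => ((BlkD p M χ N d).ncard : ℤ)).Finite := by
    refine h1.subset ?_
    intro d hd
    rw [Function.mem_support] at hd ⊢
    rw [← hBD d]
    exact_mod_cast hd
  refine ⟨h3.subset ?_, ?_⟩
  · intro d hd
    rw [Function.mem_support] at hd ⊢
    exact right_ne_zero_of_mul hd
  · rw [← mul_finsum]
    congr 1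
    have h4 : ∑ᶠ d : ℤ, (BlkD p M χ N d).ncard = (Blk M χ N).ncard := h2
    rw [← h4]
    have h5 : (Function.support fun d : ℤ => (BlkD p M χ N d).ncard).Finite := h1
    exact ((Nat.castAddMonoidHom ℤ).map_finsum h5).symm

theorem FFF2 (hFT0 : FT0_stmt) (hFFS2 : FFS2_stmt) (hFNC2 : FNC2_stmt) (hFRA : FRA_stmt) (hKKI : KKI_stmt)
    (hB2 : Pool.Agent.DI.B2_stmt) : FFF2_stmt := by
  intro p M hS G _ _ D x θ χ hL hop
  classical
  have hpf : Fact p.Prime := ⟨hS.pr⟩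
  obtain ⟨⟨hcT, -, -, -⟩, -, -⟩ := hFRA p M hS G D x θ χ hL.lo ⊥ bot_le
  have hTn : TT M D θ ≤ nz (cz D) := by
    intro t ht
    have ht1 : t ∈ nz D := ht.1
    rw [Subgroup.mem_normalizer_iff]
    intro y
    constructor
    · intro hy
      exact cz_conj ht1 hy
    · intro hy
      have h1 := cz_conj ((nz D).inv_mem ht1) hy
      have h2 : t⁻¹ * (t * y * t⁻¹) * t⁻¹⁻¹ = y := by group
      rw [h2] at h1
      exact h1
  obtain ⟨k, hk1, hk2, hk3⟩ := hKKI G (cz D) (TT M D θ) hcT hTn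
  refine ⟨k, hk1, hk2, hk3, ?_⟩
  -- the orders
  have hT : (Nat.card (TT M D θ) : ℤ) = (Nat.card (cz D) : ℤ) * ((cz D).relIndex (TT M D θ) : ℤ) := by
    have h1 := Subgroup.relIndex_mul_relIndex ⊥ (cz D) (TT M D θ) bot_le hcT
    rw [Subgroup.relIndex_bot_left, Subgroup.relIndex_bot_left] at h1
    rw [← h1]
    push_cast
    ring
  have hG0 : (Nat.card G : ℤ) ≠ 0 := by exact_mod_cast Nat.card_pos.ne'
  have hc0 : (Nat.card (cz D) : ℤ) ≠ 0 := by exact_mod_cast Nat.card_pos.ne'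
  have hGt : (Nat.card (⊤ : Subgroup G) : ℤ) = Nat.card G := by
    rw [Subgroup.card_top]
  have hnP : ((nP (cz D) (TT M D θ) : ℕ) : ℤ) =
      (Nat.card (cz D) : ℤ) ^ 2 * (((cz D).relIndex (TT M D θ) : ℤ) * k) := by
    rw [hk3]
    push_cast
    ring
  have hset : {C : Finset (Subgroup G) | NCh p ⊤ ⊥ C} =
      insert {⊥} {C : Finset (Subgroup G) | NCh p ⊤ ⊥ C ∧ C ≠ {⊥}} := by
    ext C
    simp only [Set.mem_insert_iff, Set.mem_ofPred_eq]
    constructor
    · intro h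
      by_cases e : C = {⊥}
      · exact Or.inl e
      · exact Or.inr ⟨h, e⟩
    · rintro (rfl | h)
      · exact FFF2_nch p
      · exact h.1
  have hnm : ({⊥} : Finset (Subgroup G)) ∉ {C : Finset (Subgroup G) | NCh p ⊤ ⊥ C ∧ C ≠ {⊥}} :=
    fun h => h.2 rfl
  have hSf : ({C : Finset (Subgroup G) | NCh p ⊤ ⊥ C ∧ C ≠ {⊥}} : Set (Finset (Subgroup G))).Finite :=
    Set.toFinite _
  -- the formula for every defect
  have h0 : ∀ d : ℤ, (Nat.card G : ℤ) * altSum (trivE G) p M χ d ⊤ =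
      (Nat.card G : ℤ) * ((BlkD p M χ ⊤ d).ncard : ℤ) +
      ∑ C ∈ hSf.toFinset, ((-1) ^ (C.card + 1) * (Nat.card (nrm C) : ℤ)) * ((BlkD p M χ (nrm C) d).ncard : ℤ) := by
    intro d
    have h1 := hFT0 G p M hop χ hL.lo.rt.chi d
    rw [hset, finsum_mem_insert _ hnm hSf, FFF2_nrm, Finset.card_singleton, hGt,
      finsum_mem_eq_finite_toFinset_sum _ hSf] at h1
    rw [h1]
    congr 1
    · ring
    · exact Finset.sum_congr rfl fun C _ => by ring
  -- the sum over the chains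
  have hF := hFFS2 p M hS G D x θ χ hL
  rw [finsum_mem_eq_finite_toFinset_sum _ hSf, hT, hnP] at hF
  have hF' : ((cz D).relIndex (TT M D θ) : ℤ) *
      ∑ C ∈ hSf.toFinset, ((-1) ^ (C.card + 1) * (Nat.card (nrm C) : ℤ)) * ((Blk M χ (nrm C)).ncard : ℤ) =
      - ((Nat.card G : ℤ) * ((Nat.card D : ℤ) - 1 + ((cz D).relIndex (TT M D θ) : ℤ) * k)) := by
    have h1 : ∑ C ∈ hSf.toFinset, ((-1) ^ (C.card + 1) * (Nat.card (nrm C) : ℤ)) * ((Blk M χ (nrm C)).ncard : ℤ) =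
        ∑ C ∈ hSf.toFinset, (-1) ^ (C.card + 1) * ((Nat.card (nrm C) : ℤ) * ((Blk M χ (nrm C)).ncard : ℤ)) :=
      Finset.sum_congr rfl fun C _ => by ring
    rw [h1]
    have h2 : ((Nat.card (cz D) : ℤ) ^ 2) * (((cz D).relIndex (TT M D θ) : ℤ) *
        ∑ C ∈ hSf.toFinset, (-1) ^ (C.card + 1) * ((Nat.card (nrm C) : ℤ) * ((Blk M χ (nrm C)).ncard : ℤ))) =
        ((Nat.card (cz D) : ℤ) ^ 2) *
        (- ((Nat.card G : ℤ) * ((Nat.card D : ℤ) - 1 + ((cz D).relIndex (TT M D θ) : ℤ) * k))) := by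
      linear_combination hF
    exact mul_left_cancel₀ (pow_ne_zero 2 hc0) h2
  refine ⟨?_, ?_⟩
  · -- the sum over the defects
    have hA : (Nat.card G : ℤ) * ∑ᶠ d : ℤ, altSum (trivE G) p M χ d ⊤ =
        (Nat.card G : ℤ) * ((Blk M χ ⊤).ncard : ℤ) +
        ∑ C ∈ hSf.toFinset, ((-1) ^ (C.card + 1) * (Nat.card (nrm C) : ℤ)) * ((Blk M χ (nrm C)).ncard : ℤ) := by
      have h1 : (Nat.card G : ℤ) * ∑ᶠ d : ℤ, altSum (trivE G) p M χ d ⊤ =
          ∑ᶠ d : ℤ, (Nat.card G : ℤ) * altSum (trivE G) p M χ d ⊤ := by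
        have := smul_finsum (Nat.card G : ℤ) fun d : ℤ => altSum (trivE G) p M χ d ⊤
        simpa only [smul_eq_mul] using this
      rw [h1, finsum_congr h0]
      have hs1 := FFF2_cnt hB2 p M χ ⊤ (Nat.card G : ℤ)
      have hs2 : ∀ C ∈ hSf.toFinset, (Function.support fun d : ℤ =>
          ((-1) ^ (C.card + 1) * (Nat.card (nrm C) : ℤ)) * ((BlkD p M χ (nrm C) d).ncard : ℤ)).Finite :=
        fun C _ => (FFF2_cnt hB2 p M χ (nrm C) _).1
      have hs3 : (Function.support fun d : ℤ => ∑ C ∈ hSf.toFinset,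
          ((-1) ^ (C.card + 1) * (Nat.card (nrm C) : ℤ)) * ((BlkD p M χ (nrm C) d).ncard : ℤ)).Finite := by
        refine (Set.Finite.biUnion (Finset.finite_toSet hSf.toFinset) hs2).subset ?_
        intro d hd
        rw [Function.mem_support] at hd
        obtain ⟨C, hC, hC'⟩ := Finset.exists_ne_zero_of_sum_ne_zero hd
        exact Set.mem_biUnion (Finset.mem_coe.2 hC) (Function.mem_support.2 hC')
      rw [finsum_add_distrib hs1.1 hs3, hs1.2]
      congr 1
      rw [finsum_sum_comm _ _ hs2]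
      exact Finset.sum_congr rfl fun C _ => (FFF2_cnt hB2 p M χ (nrm C) _).2
    have h3 : (Nat.card G : ℤ) * (((cz D).relIndex (TT M D θ) : ℤ) * ∑ᶠ d : ℤ, altSum (trivE G) p M χ d ⊤) =
        (Nat.card G : ℤ) * (((cz D).relIndex (TT M D θ) : ℤ) * (Blk M χ ⊤).ncard -
          ((Nat.card D : ℤ) - 1 + ((cz D).relIndex (TT M D θ) : ℤ) * k)) := by
      linear_combination ((cz D).relIndex (TT M D θ) : ℤ) * hA + hF'
    exact mul_left_cancel₀ hG0 h3
  · intro hlt a ha d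
    by_cases hda : d = (a : ℤ)
    · rw [if_pos hda]
      have h1 : ∀ C ∈ hSf.toFinset, BlkD p M χ (nrm C) d = Blk M χ (nrm C) := by
        intro C hC
        have hC' := hSf.mem_toFinset.1 hC
        ext φ
        constructor
        · intro h
          exact h.1
        · intro h
          refine ⟨h, ?_⟩
          rw [hda]
          exact (hFNC2 p M hS G D x θ χ hL C hC'.1 hC'.2).2 hlt φ h a ha
      have h2 := h0 d
      have h3 : ∑ C ∈ hSf.toFinset, ((-1) ^ (C.card + 1) * (Nat.card (nrm C) : ℤ)) * ((BlkD p M χ (nrm C) d).ncard : ℤ) =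
          ∑ C ∈ hSf.toFinset, ((-1) ^ (C.card + 1) * (Nat.card (nrm C) : ℤ)) * ((Blk M χ (nrm C)).ncard : ℤ) :=
        Finset.sum_congr rfl fun C hC => by rw [h1 C hC]
      rw [h3] at h2
      have h4 : (Nat.card G : ℤ) * (((cz D).relIndex (TT M D θ) : ℤ) * altSum (trivE G) p M χ d ⊤) =
          (Nat.card G : ℤ) * (((cz D).relIndex (TT M D θ) : ℤ) * (BlkD p M χ ⊤ d).ncard -
            ((Nat.card D : ℤ) - 1 + ((cz D).relIndex (TT M D θ) : ℤ) * k)) := by
        linear_combination ((cz D).relIndex (TT M D θ) : ℤ) * h2 + hF'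
      exact mul_left_cancel₀ hG0 h4
    · rw [if_neg hda]
      have h1 : ∀ C ∈ hSf.toFinset, BlkD p M χ (nrm C) d = ∅ := by
        intro C hC
        have hC' := hSf.mem_toFinset.1 hC
        rw [Set.eq_empty_iff_forall_notMem]
        rintro φ ⟨h3, h4⟩
        exact hda (FFF2_defect h4 ((hFNC2 p M hS G D x θ χ hL C hC'.1 hC'.2).2 hlt φ h3 a ha))
      have h2 := h0 d
      have h3 : ∑ C ∈ hSf.toFinset, ((-1) ^ (C.card + 1) * (Nat.card (nrm C) : ℤ)) *
          ((BlkD p M χ (nrm C) d).ncard : ℤ) = 0 := by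
        refine Finset.sum_eq_zero fun C hC => ?_
        rw [h1 C hC, Set.ncard_empty]
        simp
      rw [h3, add_zero] at h2
      have h4 : altSum (trivE G) p M χ d ⊤ = ((BlkD p M χ ⊤ d).ncard : ℤ) := mul_left_cancel₀ hG0 h2
      rw [h4, sub_zero]

end Pool.Agent.FI2
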