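import Pool.Agent.helper7.FI2.SpecH2
set_option autoImplicit false
namespace Pool.Agent.FI2
open Pool.Agent.helper58.DC Pool.Agent.DI Pool.Agent.GR Pool.Agent.OB Pool.Agent.DR Pool.Agent.FI

theorem HPU_dbl {ι : Type} [Fintype ι] (a : ι → ℤ) :
    ∑ i, ∑ j, (a i - a j) ^ 2 =
      2 * ((Fintype.card ι : ℤ) * ∑ i, a i ^ 2 - (∑ i, a i) ^ 2) := by
  have h1 : ∀ i, ∑ j, (a i - a j) ^ 2 =
      (Fintype.card ι : ℤ) * a i ^ 2 - 2 * (∑ j, a j) * a i + ∑ j, a j ^ 2 := by
    intro i
    have h2 : ∀ j, (a i - a j) ^ 2 = a i ^ 2 - 2 * a i * a j + a j ^ 2 := fun j => by ring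
    rw [Finset.sum_congr rfl (fun j _ => h2 j), Finset.sum_add_distrib, Finset.sum_sub_distrib,
      ← Finset.mul_sum, Finset.sum_const, Finset.card_univ, nsmul_eq_mul]
    ring
  rw [Finset.sum_congr rfl (fun i _ => h1 i), Finset.sum_add_distrib, Finset.sum_sub_distrib,
    ← Finset.mul_sum, ← Finset.mul_sum, Finset.sum_const, Finset.card_univ, nsmul_eq_mul]
  ring

theorem HPU_sq {x y : ℤ} (h : x ≠ y) : 1 ≤ (x - y) ^ 2 := by
  have h1 : x - y ≠ 0 := sub_ne_zero.2 h
  have h2 : 0 < (x - y) ^ 2 := by positivity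
  omega

theorem HPU_t {N n t W : ℤ} (hn : 1 ≤ n) (hN : (n + 1) ^ 2 ≤ N) (h1 : N * t ≤ 2 * W)
    (h2 : t * (N - t) ≤ W) (hW : W < n * N) : t ≤ n := by
  have hN0 : 0 < N := by nlinarith
  have ht2 : t < 2 * n := by
    by_contra hc
    push Not at hc
    have : N * (2 * n) ≤ N * t := mul_le_mul_of_nonneg_left hc hN0.le
    nlinarith
  by_contra hc
  push Not at hc
  obtain ⟨s, rfl⟩ : ∃ s, t = n + s := ⟨t - n, by ring⟩
  have hs1 : 1 ≤ s := by omega
  have hs2 : s ≤ n := by omega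
  have h3 : 0 ≤ (s - 1) * (n ^ 2 - s) := by
    apply mul_nonneg (by omega)
    nlinarith
  have h4 : s * (n + 1) ^ 2 ≤ s * N := mul_le_mul_of_nonneg_left hN (by omega)
  nlinarith

theorem HPU_row {ι : Type} [Fintype ι] [DecidableEq ι] (a : ι → ℤ) (i : ι) (S : Finset ι)
    (hS : ∀ j ∈ S, a j ≠ a i) : (S.card : ℤ) ≤ ∑ j, (a i - a j) ^ 2 := by
  calc (S.card : ℤ) = ∑ j ∈ S, (1 : ℤ) := by simp
    _ ≤ ∑ j ∈ S, (a i - a j) ^ 2 := Finset.sum_le_sum (fun j hj => HPU_sq (hS j hj).symm)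
    _ ≤ ∑ j, (a i - a j) ^ 2 :=
        Finset.sum_le_sum_of_subset_of_nonneg (Finset.subset_univ _) (fun _ _ _ => sq_nonneg _)

theorem HPU : HPU_stmt := by
  intro ι _ _ i₀ a n O hn hN ha0 hO hW hex
  have hNz : ((n : ℤ) + 1) ^ 2 ≤ (Fintype.card ι : ℤ) := by exact_mod_cast hN
  have hnz : (1 : ℤ) ≤ (n : ℤ) := by exact_mod_cast hn
  obtain ⟨iv, -, hiv⟩ := Finset.exists_max_image (Finset.univ : Finset ι)
    (fun i => (Finset.univ.filter (fun j => a j = a i)).card) ⟨i₀, Finset.mem_univ _⟩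
  obtain ⟨v, hv⟩ : ∃ v, v = a iv := ⟨_, rfl⟩
  rw [← hv] at hiv
  have hcmp : ∀ w : ℤ, (Finset.univ.filter (fun j => a j = w)).card +
      (Finset.univ.filter (fun j => ¬ a j = w)).card = Fintype.card ι := by
    intro w
    rw [Finset.card_filter_add_card_filter_not, Finset.card_univ]
  obtain ⟨E, hE⟩ : ∃ E : Finset ι, E = Finset.univ.filter (fun j => ¬ a j = v) := ⟨_, rfl⟩
  have hmE : ∀ j, j ∈ E ↔ a j ≠ v := fun j => by rw [hE]; simp
  have hd := HPU_dbl a
  have hcv := hcmp v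
  rw [← hE] at hcv
  -- (1)
  have h1 : (Fintype.card ι : ℤ) * E.card ≤
      2 * ((Fintype.card ι : ℤ) * ∑ i, a i ^ 2 - (∑ i, a i) ^ 2) := by
    rw [← hd]
    have h2 : ∀ i ∈ (Finset.univ : Finset ι), (E.card : ℤ) ≤ ∑ j, (a i - a j) ^ 2 := by
      intro i hi
      have h3 := HPU_row a i (Finset.univ.filter (fun j => ¬ a j = a i))
        (fun j hj => (Finset.mem_filter.1 hj).2)
      have h4 := hiv i hi
      have h5 := hcmp (a i)
      have h6 : E.card ≤ (Finset.univ.filter (fun j => ¬ a j = a i)).card := by omega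
      have h7 : (E.card : ℤ) ≤ ((Finset.univ.filter (fun j => ¬ a j = a i)).card : ℤ) := by
        exact_mod_cast h6
      exact h7.trans h3
    have h3 := Finset.card_nsmul_le_sum Finset.univ (fun i => ∑ j, (a i - a j) ^ 2) (E.card : ℤ) h2
    rw [nsmul_eq_mul, Finset.card_univ] at h3
    exact h3
  -- (2)
  have h2 : (E.card : ℤ) * ((Fintype.card ι : ℤ) - E.card) ≤
      (Fintype.card ι : ℤ) * ∑ i, a i ^ 2 - (∑ i, a i) ^ 2 := by
    have h3 : ∀ i ∈ E, ((Fintype.card ι : ℤ) - E.card) ≤ ∑ j, (a i - a j) ^ 2 := by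
      intro i hi
      have h4 := HPU_row a i (Finset.univ.filter (fun j => a j = v)) (fun j hj => by
        rw [(Finset.mem_filter.1 hj).2]
        exact ((hmE i).1 hi).symm)
      have h5 : ((Fintype.card ι : ℤ) - E.card) =
          ((Finset.univ.filter (fun j => a j = v)).card : ℤ) := by
        have : (((Finset.univ.filter (fun j => a j = v)).card + E.card : ℕ) : ℤ) =
          (Fintype.card ι : ℤ) := by exact_mod_cast hcv
        push_cast at this
        linarith
      rw [h5]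
      exact h4
    have h4 : ∀ i ∈ Eᶜ, (E.card : ℤ) ≤ ∑ j, (a i - a j) ^ 2 := by
      intro i hi
      have hi2 : a i = v := by
        by_contra hc
        exact (Finset.mem_compl.1 hi) ((hmE i).2 hc)
      exact HPU_row a i E (fun j hj => by rw [hi2]; exact (hmE j).1 hj)
    have h5 := Finset.card_nsmul_le_sum E (fun i => ∑ j, (a i - a j) ^ 2) _ h3
    have h6 := Finset.card_nsmul_le_sum Eᶜ (fun i => ∑ j, (a i - a j) ^ 2) _ h4
    have h7 : (∑ i ∈ E, ∑ j, (a i - a j) ^ 2) + (∑ i ∈ Eᶜ, ∑ j, (a i - a j) ^ 2) =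
      ∑ i, ∑ j, (a i - a j) ^ 2 := Finset.sum_add_sum_compl E _
    have h8 : ((Eᶜ.card : ℕ) : ℤ) = (Fintype.card ι : ℤ) - E.card := by
      have h9 := Finset.card_add_card_compl E
      have h10 : ((E.card + Eᶜ.card : ℕ) : ℤ) = (Fintype.card ι : ℤ) := by exact_mod_cast h9
      push_cast at h10
      linarith
    rw [nsmul_eq_mul] at h5 h6
    rw [h8] at h6
    rw [hd] at h7
    nlinarith
  have ht : (E.card : ℤ) ≤ n := HPU_t hnz hNz h1 h2 hW
  have htn : E.card ≤ n := by exact_mod_cast ht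
  by_cases hv0 : v = 0
  · right
    obtain ⟨i, hi⟩ := hex
    have hii : i ≠ i₀ := by
      rintro rfl
      exact hi ha0
    obtain ⟨h3, h4, h5, h6⟩ := hO i hii
    have h7 : O i ⊆ E := by
      intro j hj
      rw [hmE, hv0, h6 j hj]
      exact hi
    have h8 : O i = E := Finset.eq_of_subset_of_card_le h7 (by rw [h4]; exact htn)
    have h9 : ∀ j, j ∉ O i → a j = 0 := by
      intro j hj
      rw [h8, hmE] at hj
      push Not at hj
      rw [hj, hv0]
    refine ⟨i, hii, a i, ?_, h6, h9⟩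
    have h10 : ∑ j, a j ^ 2 = n * a i ^ 2 := by
      have h11 : ∑ j, a j ^ 2 = ∑ j ∈ O i, a j ^ 2 := by
        symm
        apply Finset.sum_subset (Finset.subset_univ _)
        intro j _ hj
        rw [h9 j hj]
        ring
      rw [h11, Finset.sum_congr rfl (fun j hj => by rw [h6 j hj]), Finset.sum_const, h4,
        nsmul_eq_mul]
    have h12 : ∑ j, a j = n * a i := by
      have h11 : ∑ j, a j = ∑ j ∈ O i, a j := by
        symm
        apply Finset.sum_subset (Finset.subset_univ _)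
        intro j _ hj
        exact h9 j hj
      rw [h11, Finset.sum_congr rfl (fun j hj => by rw [h6 j hj]), Finset.sum_const, h4,
        nsmul_eq_mul]
    rw [h10, h12] at hW
    have h13 : (n : ℤ) * (a i ^ 2 * ((Fintype.card ι : ℤ) - n)) < n * (Fintype.card ι : ℤ) := by
      nlinarith
    have h14 : a i ^ 2 * ((Fintype.card ι : ℤ) - n) < (Fintype.card ι : ℤ) :=
      lt_of_mul_lt_mul_left h13 (by omega)
    have h15 : a i ^ 2 < 4 := by
      by_contra hc
      push Not at hc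
      have h16 : 0 ≤ (Fintype.card ι : ℤ) - n := by nlinarith
      have h17 := mul_le_mul_of_nonneg_right hc h16
      nlinarith
    have h18 : -2 < a i := by nlinarith
    have h19 : a i < 2 := by nlinarith
    omega
  · left
    have h3 : i₀ ∈ E := by
      rw [hmE, ha0]
      exact fun h => hv0 h.symm
    have h4 : ∀ i, i ≠ i₀ → a i = v := by
      intro i hi
      by_contra hc
      obtain ⟨h5, h6, h7, h8⟩ := hO i hi
      have h9 : insert i₀ (O i) ⊆ E := by
        intro j hj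
        rcases Finset.mem_insert.1 hj with rfl | hj
        · exact h3
        · rw [hmE, h8 j hj]
          exact hc
      have h10 := Finset.card_le_card h9
      rw [Finset.card_insert_of_notMem h7, h6] at h10
      omega
    refine ⟨v, hv0, ?_, h4⟩
    have h5 : ∑ j, a j ^ 2 = ((Fintype.card ι : ℤ) - 1) * v ^ 2 := by
      rw [← Finset.add_sum_erase _ _ (Finset.mem_univ i₀), ha0,
        Finset.sum_congr rfl (fun j hj => by rw [h4 j (Finset.ne_of_mem_erase hj)]),
        Finset.sum_const, Finset.card_erase_of_mem (Finset.mem_univ i₀), Finset.card_univ,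
        nsmul_eq_mul]
      have : 1 ≤ Fintype.card ι := Fintype.card_pos_iff.2 ⟨i₀⟩
      push_cast [Nat.cast_sub this]
      ring
    have h6 : ∑ j, a j = ((Fintype.card ι : ℤ) - 1) * v := by
      rw [← Finset.add_sum_erase _ _ (Finset.mem_univ i₀), ha0,
        Finset.sum_congr rfl (fun j hj => h4 j (Finset.ne_of_mem_erase hj)),
        Finset.sum_const, Finset.card_erase_of_mem (Finset.mem_univ i₀), Finset.card_univ,
        nsmul_eq_mul]
      have : 1 ≤ Fintype.card ι := Fintype.card_pos_iff.2 ⟨i₀⟩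
      push_cast [Nat.cast_sub this]
      ring
    rw [h5, h6] at hW
    have h7 : ((Fintype.card ι : ℤ) - 1) * v ^ 2 < n * (Fintype.card ι : ℤ) := by nlinarith
    by_contra hc
    push Not at hc
    have h8 : (n : ℤ) + 1 ≤ v ^ 2 := by omega
    have h9 : 0 ≤ (Fintype.card ι : ℤ) - 1 := by nlinarith
    have h10 := mul_le_mul_of_nonneg_left h8 h9
    nlinarith

end Pool.Agent.FI2
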